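import Pool.Agent.Lib.MP_4c860b_pr.FZ.HOM

/-!
# Modified diameter-frozen percolation: microscopic clusters and early freezing

The process with parameter `N` on the triangular lattice, driven by independent uniform times. For every finite connected
set `C ∋ 0` with connected complement, `liminf_N P(C_1(0) = C) > 0` if and only if for some `s < 1`
`liminf_N P(0 freezes at a time ≤ s) > 0`. If the complement of `C` is not connected, then
`P(C_1(0) = C) = 0` for all large `N`.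
-/

set_option autoImplicit false

namespace Pool.Agent.Results.MP_4c860b_pr.EarlyFreezing

open MeasureTheory Set Filter Pool.Agent.Lib.MP4c860b.FZ

theorem result :
    (∀ N : ℕ, ∀ᵐ τ ∂P, ∃! Fr, IsProc N τ Fr) ∧
    (∀ C : Set V, C.Finite → (0 : V) ∈ C → ∀ (N : ℕ) (δ : ℝ), 0 < δ → δ < 1 →
      P {τ | C1 (proc N τ) = C} ≤ P {τ | Froz τ (proc N τ) (1 - δ) 0} + ENNReal.ofReal δ) ∧
    (∀ C : Set V, C.Finite → (0 : V) ∈ C → Conn C → Conn Cᶜ →
      (0 < liminf (fun N : ℕ => P {τ | C1 (proc N τ) = C}) atTop ↔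
        ∃ s : ℝ, s < 1 ∧ 0 < liminf (fun N : ℕ => P {τ | Froz τ (proc N τ) s 0}) atTop)) ∧
    (∀ C : Set V, C.Finite → (0 : V) ∈ C → ¬ Conn Cᶜ →
      ∃ N₀ : ℕ, ∀ N ≥ N₀, P {τ | C1 (proc N τ) = C} = 0) ∧
    (∃ C : Set V, C.Finite ∧ (0 : V) ∈ C ∧ Conn C ∧ ¬ Conn Cᶜ ∧
      ∀ N : ℕ, 1 ≤ N → P {τ | C1 (proc N τ) = C} = 0) :=
  ⟨exists_unique, upp, fin, hol, holm⟩

end Pool.Agent.Results.MP_4c860b_pr.EarlyFreezing
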